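import Pool.Agent.L7h3.GX.Stm
import Pool.Agent.Y699.Qk

/-!
# Project GX: the criterion and the kernel of the Laplacian
-/

set_option autoImplicit false
set_option linter.unusedVariables false

open scoped Classical

namespace Pool.Agent.L7h3.GX

open Finset
open Pool.Agent.Y699
open H385 (ZI nrm)

lemma nrm_int (D : ZI) : ((nrm D : ℕ) : ℤ) = D.norm := by
  have h4 := nrm_cast D
  exact_mod_cast h4

lemma cls_norm {D : ZI} : nrm D % 16 = 13 ↔ D.norm % 16 = 13 := by
  have h := nrm_int D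
  constructor
  · intro h1
    omega
  · intro h1
    omega

lemma good4_to {D : ZI} (h : Good4 D) : ClsG D ∧ Gd (PD D) := by
  refine ⟨⟨h.ps, cls_norm.2 h.nm⟩, ?_⟩
  intro v hv π hπ ρ hρ
  have h1 := ker_of_good h.good (fun i => v i.1) (by
    intro j _
    have h2 := hv j.1 j.2
    have h3 : ∑ ρ ∈ PD D, ep j.1 ρ * (v ρ - v j.1) =
        ∑ i : {π : ZI // π ∈ PD D}, ep j.1 i.1 * (v i.1 - v j.1) :=
      (Finset.sum_coe_sort (PD D) (fun ρ => ep j.1 ρ * (v ρ - v j.1))).symm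
    rw [h3] at h2
    rw [← h2]
    refine Finset.sum_congr rfl fun i _ => ?_
    have h4 : ∀ a b : ZMod 2, a + b = a - b := by decide
    rw [h4]
    rfl)
  exact h1 ⟨π, hπ⟩ (Finset.mem_univ _) ⟨ρ, hρ⟩ (Finset.mem_univ _)

lemma sg_one {x : ZMod 2} (h : Y699.sg x = 1) : x = 0 := by
  revert h
  revert x
  decide

lemma isCoprime_of_sqf {d d' : ZI} (h : Squarefree (d * d')) : IsCoprime d d' := by
  have := (squarefree_mul_iff.1 h).1
  exact this.isCoprime

lemma good4_of {D : ZI} (hc : ClsG D) (hg : Gd (PD D)) : Good4 D := by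
  refine ⟨hc.1, cls_norm.1 hc.2, ?_⟩
  intro d d' hd hd' hD h1 h2
  have hps : PS d := hc.1.of_dvd hd ⟨d', hD⟩
  have hps' : PS d' := hc.1.of_dvd hd' ⟨d, by rw [hD]; ring⟩
  have hco : IsCoprime d d' := isCoprime_of_sqf (by rw [← hD]; exact hc.1.sqf)
  have hU : PD D = PD d ∪ PD d' := by rw [hD]; exact PD_mul hps.ne hps'.ne
  have hdisj : Disjoint (PD d) (PD d') := PD_disj hps.ne hps'.ne hco
  have hnd : ∀ π ∈ PD d, ∀ u ∈ PD d', ¬ π ∣ u := by
    intro π hπ u hu hdv
    have e := ((mem_PD hps.ne).1 hπ).1.eq_of_dvd ((mem_PD hps'.ne).1 hu).1 hdv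
    exact Finset.disjoint_left.1 hdisj hπ (by rw [e]; exact hu)
  have hnd' : ∀ π ∈ PD d', ∀ u ∈ PD d, ¬ π ∣ u := by
    intro π hπ u hu hdv
    have e := ((mem_PD hps'.ne).1 hπ).1.eq_of_dvd ((mem_PD hps.ne).1 hu).1 hdv
    exact Finset.disjoint_left.1 hdisj (by rw [← e] at hu; exact hu) hπ
  have hneg : ∀ a : ZMod 2, a * (0 - 1) = a := by decide
  have hneg' : ∀ a : ZMod 2, a * (1 - 0) = a := by decide
  have hsol : Sol (PD D) (fun π => if π ∈ PD d then 1 else 0) := by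
    intro π hπ
    rw [hU, Finset.sum_union hdisj]
    rw [hU, Finset.mem_union] at hπ
    by_cases hπd : π ∈ PD d
    · have e1 : ∑ ρ ∈ PD d, ep π ρ * ((if ρ ∈ PD d then (1 : ZMod 2) else 0) -
          if π ∈ PD d then 1 else 0) = 0 := by
        refine Finset.sum_eq_zero fun ρ hρ => ?_
        rw [if_pos hρ, if_pos hπd, sub_self, mul_zero]
      have e2 : ∑ ρ ∈ PD d', ep π ρ * ((if ρ ∈ PD d then (1 : ZMod 2) else 0) -
          if π ∈ PD d then 1 else 0) = ∑ ρ ∈ PD d', ep π ρ := by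
        refine Finset.sum_congr rfl fun ρ hρ => ?_
        rw [if_neg (fun h => Finset.disjoint_left.1 hdisj h hρ), if_pos hπd, hneg]
      rw [e1, e2, zero_add]
      apply sg_one
      rw [← qr_prod_ep ((mem_PD hps.ne).1 hπd).1 (hnd π hπd), hps'.prod]
      exact h1 π hπd
    · have hπd' : π ∈ PD d' := hπ.resolve_left hπd
      have e1 : ∑ ρ ∈ PD d', ep π ρ * ((if ρ ∈ PD d then (1 : ZMod 2) else 0) -
          if π ∈ PD d then 1 else 0) = 0 := by
        refine Finset.sum_eq_zero fun ρ hρ => ?_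
        rw [if_neg (fun h => Finset.disjoint_left.1 hdisj h hρ), if_neg hπd, sub_self, mul_zero]
      have e2 : ∑ ρ ∈ PD d, ep π ρ * ((if ρ ∈ PD d then (1 : ZMod 2) else 0) -
          if π ∈ PD d then 1 else 0) = ∑ ρ ∈ PD d, ep π ρ := by
        refine Finset.sum_congr rfl fun ρ hρ => ?_
        rw [if_pos hρ, if_neg hπd, hneg']
      rw [e1, e2, add_zero]
      apply sg_one
      rw [← qr_prod_ep ((mem_PD hps'.ne).1 hπd').1 (hnd' π hπd'), hps.prod]
      exact h2 π hπd'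
  by_contra hcon
  push Not at hcon
  obtain ⟨hn1, hn2⟩ := hcon
  have hne : ∀ x : ZI, PS x → x ≠ 1 → ∃ π, π ∈ PD x := by
    intro x hx hx1
    by_contra hno
    push Not at hno
    have : PD x = ∅ := Finset.eq_empty_of_forall_notMem hno
    apply hx1
    rw [← hx.prod, this, Finset.prod_empty]
  obtain ⟨π, hπ⟩ := hne d hps hn1
  obtain ⟨ρ, hρ⟩ := hne d' hps' hn2
  have h3 := hg _ hsol π (by rw [hU]; exact Finset.mem_union_left _ hπ) ρ
    (by rw [hU]; exact Finset.mem_union_right _ hρ)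
  rw [if_pos hπ, if_neg (fun h => Finset.disjoint_left.1 hdisj h hρ)] at h3
  exact one_ne_zero h3

/-- the two forms of the criterion agree -/
theorem good4_iff {D : ZI} : Good4 D ↔ ClsG D ∧ Gd (PD D) :=
  ⟨good4_to, fun h => good4_of h.1 h.2⟩

end Pool.Agent.L7h3.GX
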