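import Pool.Agent.L7h77.GX.BIL
import Pool.Agent.L7h77.GX.NS
import Pool.Agent.L7h77.GX.BOX
import Pool.Agent.L7h77.GX.EQ
import Pool.Agent.L7h77.GX.CNT
import Pool.Agent.L7h97.GX.ASY
import Pool.Agent.L7h97.GX.LOW
import Pool.Agent.L7h97.GX.BAD
import Pool.Agent.L7h23.GX.KEY
import Pool.Agent.L7h47.GX.LA
import Pool.Agent.Y839.CQ.SYM
import Pool.Agent.Y948.CQ.C2

/-!
# Project GX: the exact proportion

The parts are by helper77 (BIL, NS, BOX, EQ, CNT), helper97 (ASY, LOW, FEW, BAD), helper23 (KEY),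
helper47 (LA); the model is project XK.
-/

set_option autoImplicit false

namespace Pool.Agent.L7h3.GX

theorem t_DQ : S_DQ :=
  Pool.Agent.L7h97.GX.t_ASY Pool.Agent.L7h77.GX.t_BIL Pool.Agent.L7h77.GX.t_EQ
    Pool.Agent.L7h47.GX.t_LA Pool.Agent.L7h77.GX.t_BOX Pool.Agent.L7h23.GXK.t_KEY
    Pool.Agent.L7h77.GX.CN.t_CNT Pool.Agent.L7h97.GX.t_BAD Pool.Agent.L7h97.GX.t_FEW
    Pool.Agent.L7h97.GX.t_LOW Pool.Agent.Y948.CQ.t_C2

/-- **the exact proportion** -/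
theorem t_DEN : S_DEN := Pool.Agent.L7h77.GX.t_NS t_DQ

end Pool.Agent.L7h3.GX
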